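import Pool.Agent.Helper981.KP.Final

set_option autoImplicit false

namespace Pool.Agent.Results.MP_fd63cb_lc.ZYStringsMachine

/-- `U` is a prefix-free machine: a partial computable map on binary strings such that no program
in its domain is a proper initial segment of another program in its domain. -/
def PrefixFreeMachine (U : List Bool →. List Bool) : Prop :=
  Partrec U ∧ ∀ p q : List Bool, (U p).Dom → (U q).Dom → p <+: q → p = q

/-- `U` is an optimal prefix-free machine: it is prefix-free, and for every prefix-free machine
`V` there is `c` such that whatever `V` produces from a program `p`, `U` produces from some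
program of length at most `|p| + c`. -/
def OptimalMachine (U : List Bool →. List Bool) : Prop :=
  PrefixFreeMachine U ∧ ∀ V : List Bool →. List Bool, PrefixFreeMachine V →
    ∃ c : ℕ, ∀ p x : List Bool, x ∈ V p → ∃ q : List Bool, x ∈ U q ∧ q.length ≤ p.length + c

/-- prefix complexity of the string `x`: the least length of a program `p` with `U(p) = x` -/
noncomputable def KP (U : List Bool →. List Bool) (x : List Bool) : ℕ :=
  sInf {l : ℕ | ∃ p : List Bool, p.length = l ∧ x ∈ U p}

/-- The Zhang-Yeung inequality for prefix complexity with precision `O(1)`, for every optimal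
prefix-free machine `U` and every computable injective encoding `enc` of tuples of strings:
`2 I(3:4) ≤ I(1:2) + I(1:34) + 3 I(3:4|1) + I(3:4|2) + c`. -/
theorem result : ∀ U : List Bool →. List Bool, OptimalMachine U →
    ∀ enc : List (List Bool) → List Bool, Computable enc → Function.Injective enc →
    ∃ c : ℝ, ∀ x₁ x₂ x₃ x₄ : List Bool,
    2 * ((KP U (enc [x₃]) : ℝ) + KP U (enc [x₄]) - KP U (enc [x₃, x₄])) ≤
      ((KP U (enc [x₁]) : ℝ) + KP U (enc [x₂]) - KP U (enc [x₁, x₂])) +
      ((KP U (enc [x₁]) : ℝ) + KP U (enc [x₃, x₄]) - KP U (enc [x₁, x₃, x₄])) +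
      3 * ((KP U (enc [x₁, x₃]) : ℝ) + KP U (enc [x₁, x₄]) - KP U (enc [x₁, x₃, x₄])
        - KP U (enc [x₁])) +
      ((KP U (enc [x₂, x₃]) : ℝ) + KP U (enc [x₂, x₄]) - KP U (enc [x₂, x₃, x₄])
        - KP U (enc [x₂])) + c := by
  intro U hU enc henc hinj
  exact Pool.Agent.Helper981.KP.zy_machine hU enc henc hinj

end Pool.Agent.Results.MP_fd63cb_lc.ZYStringsMachine
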