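import Pool.Agent.Helper981.KP.ZYMain

set_option autoImplicit false

namespace Pool.Agent.Results.MP_fd63cb_lc.ZhangYeungKP

/-- `K : ℕ → ℕ` is upper semicomputable: for some computable `f`, `K x` is the minimum of
`f x t` over all `t`. -/
def UpperSemicomputable (K : ℕ → ℕ) : Prop :=
  ∃ f : ℕ → ℕ → ℕ, Computable₂ f ∧ ∀ x, (∀ t, K x ≤ f x t) ∧ ∃ t, f x t = K x

/-- Kraft inequality: `∑_x 2^(-K x) ≤ 1`. -/
def KraftBounded (K : ℕ → ℕ) : Prop :=
  Summable (fun x : ℕ => ((1:ℝ)/2) ^ K x) ∧ (∑' x : ℕ, ((1:ℝ)/2) ^ K x) ≤ 1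

/-- `K` is prefix (self-delimiting) Kolmogorov complexity: an upper semicomputable function
satisfying the Kraft inequality which is minimal, up to an additive constant, among all
upper semicomputable functions satisfying the Kraft inequality. -/
def IsPrefixComplexity (K : ℕ → ℕ) : Prop :=
  UpperSemicomputable K ∧ KraftBounded K ∧
    ∀ K' : ℕ → ℕ, UpperSemicomputable K' → KraftBounded K' → ∃ c : ℕ, ∀ x, K x ≤ K' x + c

/-- The Zhang-Yeung inequality holds for prefix complexity with precision `O(1)`: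
`2 I(3:4) ≤ I(1:2) + I(1:34) + 3 I(3:4|1) + I(3:4|2) + c`, with every term expanded into
the complexities of tuples (lists). -/
theorem result : ∀ K : ℕ → ℕ, IsPrefixComplexity K → ∃ c : ℝ, ∀ x₁ x₂ x₃ x₄ : ℕ,
    2 * ((K (Encodable.encode [x₃]) : ℝ) + K (Encodable.encode [x₄])
        - K (Encodable.encode [x₃, x₄])) ≤
      ((K (Encodable.encode [x₁]) : ℝ) + K (Encodable.encode [x₂])
        - K (Encodable.encode [x₁, x₂])) +
      ((K (Encodable.encode [x₁]) : ℝ) + K (Encodable.encode [x₃, x₄])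
        - K (Encodable.encode [x₁, x₃, x₄])) +
      3 * ((K (Encodable.encode [x₁, x₃]) : ℝ) + K (Encodable.encode [x₁, x₄])
        - K (Encodable.encode [x₁, x₃, x₄]) - K (Encodable.encode [x₁])) +
      ((K (Encodable.encode [x₂, x₃]) : ℝ) + K (Encodable.encode [x₂, x₄])
        - K (Encodable.encode [x₂, x₃, x₄]) - K (Encodable.encode [x₂])) + c := by
  intro K hK
  exact Pool.Agent.Helper981.KP.zy_KP hK

end Pool.Agent.Results.MP_fd63cb_lc.ZhangYeungKP
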